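import Pool.Agent.H655.EF.Target

/-!
Homeomorphism of manifolds which are closed subsets of a Polish space.
-/

open Set Filter Topology MeasureTheory TopologicalSpace

namespace Pool.Agent.H655.EF

open Pool.Agent.H655.CM Pool.Agent.H655.MC

theorem FU_structures_metric (U : Type) [MetricSpace U] [CompleteSpace U] [SeparableSpace U]
    (E : Type) [NormedAddCommGroup E] [NormedSpace ℝ E] [FiniteDimensional ℝ E] :
    ∃ R : FU U → ℕ → ℕ → ℕ → Prop, Measurable R ∧ ∀ F F' : FU U, F.toSet.Nonempty →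
      F'.toSet.Nonempty → Nonempty (ChartedSpace E F.toSet) → Nonempty (ChartedSpace E F'.toSet) →
      (Nonempty (F.toSet ≃ₜ F'.toSet) ↔
        ∃ σ : ℕ ≃ ℕ, ∀ j a b, R F j a b ↔ R F' j (σ a) (σ b)) := by
  obtain ⟨g, hg, hgR⟩ := exists_metric_code U
  obtain ⟨R, hR, hc⟩ := metric_structures E
  refine ⟨fun F => R (g F), hR.comp hg, ?_⟩
  rintro F F' hF hF' ⟨i1⟩ ⟨i2⟩
  obtain ⟨a, ha⟩ := hgR F hF
  obtain ⟨a', ha'⟩ := hgR F' hF'
  have : CompleteSpace F.toSet := F.closed.completeSpace_coe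
  have : CompleteSpace F'.toSet := F'.closed.completeSpace_coe
  exact hc F.toSet F'.toSet a a' (g F) (g F') ha ha'

theorem FU_structures (U : Type) [TopologicalSpace U] [PolishSpace U]
    (E : Type) [NormedAddCommGroup E] [NormedSpace ℝ E] [FiniteDimensional ℝ E] :
    ∃ R : FU U → ℕ → ℕ → ℕ → Prop, Measurable R ∧ ∀ F F' : FU U, F.toSet.Nonempty →
      F'.toSet.Nonempty → Nonempty (ChartedSpace E F.toSet) → Nonempty (ChartedSpace E F'.toSet) →
      (Nonempty (F.toSet ≃ₜ F'.toSet) ↔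
        ∃ σ : ℕ ≃ ℕ, ∀ j a b, R F j a b ↔ R F' j (σ a) (σ b)) := by
  letI := upgradeIsCompletelyMetrizable U
  exact FU_structures_metric U E

/-- Transport of an atlas. -/
theorem charted_of_homeo {E X Y : Type} [TopologicalSpace E] [TopologicalSpace X]
    [TopologicalSpace Y] [ChartedSpace E X] (e : X ≃ₜ Y) : Nonempty (ChartedSpace E Y) := by
  refine ⟨{ atlas := {φ | ∃ x : X, φ = e.symm.toOpenPartialHomeomorph.trans (chartAt E x)}
            chartAt := fun y => e.symm.toOpenPartialHomeomorph.trans (chartAt E (e.symm y))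
            mem_chart_source := fun y => ?_
            chart_mem_atlas := fun y => ⟨_, rfl⟩ }⟩
  simp

/-- Empty spaces are homeomorphic. -/
theorem homeo_of_empty {X Y : Type} [TopologicalSpace X] [TopologicalSpace Y] (h1 : IsEmpty X)
    (h2 : IsEmpty Y) : Nonempty (X ≃ₜ Y) :=
  ⟨⟨Equiv.equivOfIsEmpty _ _, continuous_iff_continuousAt.2 fun x => (h1.false x).elim,
    continuous_iff_continuousAt.2 fun x => (h2.false x).elim⟩⟩

/-- The reduction to graphs. -/
theorem FU_graph (U : Type) [TopologicalSpace U] [PolishSpace U]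
    (E : Type) [NormedAddCommGroup E] [NormedSpace ℝ E] [FiniteDimensional ℝ E] :
    ∃ G : FU U → ℕ → ℕ → Prop, (∀ i j, Measurable fun F => G F i j) ∧
      (∀ F i j, G F i j → G F j i) ∧ (∀ F i, ¬ G F i i) ∧
      ∀ F F' : FU U, Nonempty (ChartedSpace E F.toSet) → Nonempty (ChartedSpace E F'.toSet) →
      (Nonempty (F.toSet ≃ₜ F'.toSet) ↔
        ∃ σ : ℕ ≃ ℕ, ∀ i j, G F i j ↔ G F' (σ i) (σ j)) := by
  obtain ⟨R, hR, hc⟩ := FU_structures U E
  refine ⟨fun F i j => F.toSet.Nonempty ∧ GR.Gr (R F) i j, ?_, ?_, ?_, ?_⟩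
  · intro i j
    refine Measurable.and ?_ (GR.meas_Gr (F := R) (fun j a b => ?_) i j)
    · have h1 : (fun F : FU U => F.toSet.Nonempty) = fun F => (F.toSet ∩ univ).Nonempty := by
        simp
      rw [h1]
      exact m_hit isOpen_univ
    · exact (measurable_pi_apply b).comp ((measurable_pi_apply a).comp
        ((measurable_pi_apply j).comp hR))
  · exact fun F i j h => ⟨h.1, GR.Gr_symm h.2⟩
  · exact fun F i h => GR.Gr_irrefl i h.2
  · intro F F' h h'
    have hedge : ∀ F : FU U, ∃ i j, GR.Gr (R F) i j := by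
      intro F
      refine ⟨GR.nv (GR.Vx.el 0), GR.nv (GR.Vx.p 0 0 0), ?_⟩
      unfold GR.Gr
      rw [Equiv.symm_apply_apply, Equiv.symm_apply_apply]
      exact Or.inl (GR.Ed.ep 0 0 0)
    by_cases hF : F.toSet.Nonempty
    · by_cases hF' : F'.toSet.Nonempty
      · rw [hc F F' hF hF' h h', GR.Gr_iff]
        simp only [hF, hF', true_and]
      · constructor
        · rintro ⟨e⟩
          obtain ⟨x, hx⟩ := hF
          exact absurd ⟨_, (e ⟨x, hx⟩).2⟩ hF'
        · rintro ⟨σ, hσ⟩
          obtain ⟨i, j, hij⟩ := hedge F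
          exact absurd ((hσ i j).1 ⟨hF, hij⟩).1 hF'
    · by_cases hF' : F'.toSet.Nonempty
      · constructor
        · rintro ⟨e⟩
          obtain ⟨x, hx⟩ := hF'
          exact absurd ⟨_, (e.symm ⟨x, hx⟩).2⟩ hF
        · rintro ⟨σ, hσ⟩
          obtain ⟨i, j, hij⟩ := hedge F'
          have := (hσ (σ.symm i) (σ.symm j)).2
          rw [σ.apply_symm_apply, σ.apply_symm_apply] at this
          exact absurd (this ⟨hF', hij⟩).1 hF
      · refine iff_of_true ?_ ⟨Equiv.refl _, fun i j => iff_of_false (fun h => hF h.1)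
          (fun h => hF' h.1)⟩
        have h1 : IsEmpty F.toSet := ⟨fun x => hF ⟨_, x.2⟩⟩
        have h2 : IsEmpty F'.toSet := ⟨fun x => hF' ⟨_, x.2⟩⟩
        exact homeo_of_empty h1 h2

/-- A Polish space which contains a closed copy of every Polish space. -/
def Universal (U : Type) [TopologicalSpace U] : Prop :=
  ∀ (Y : Type) [TopologicalSpace Y] [PolishSpace Y], ∃ F : FU U, Nonempty (Y ≃ₜ F.toSet)

theorem Universal.exists_emb {U : Type} [TopologicalSpace U] (h : Universal U) (Y : Type)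
    [TopologicalSpace Y] [PolishSpace Y] : ∃ ι : Y → U, IsClosedEmbedding ι := by
  obtain ⟨F, ⟨e⟩⟩ := h Y
  exact ⟨fun y => (e y : U), F.closed.isClosedEmbedding_subtypeVal.comp e.isClosedEmbedding⟩

open Classical in
/-- The reduction between dimensions. -/
theorem FU_reduction (U : Type) [TopologicalSpace U] [PolishSpace U] (hU : Universal U)
    (E₁ : Type) [NormedAddCommGroup E₁] [NormedSpace ℝ E₁] [FiniteDimensional ℝ E₁]
    {E : Type} [NormedAddCommGroup E] [InnerProductSpace ℝ E] [FiniteDimensional ℝ E]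
    (P : Pool.Agent.TH227.TM.Fr E) :
    ∃ f : FU U → FU U, Measurable f ∧
      (∀ F : FU U, Nonempty (ChartedSpace E (f F).toSet)) ∧
      ∀ F F' : FU U, Nonempty (ChartedSpace E₁ F.toSet) → Nonempty (ChartedSpace E₁ F'.toSet) →
      (Nonempty (F.toSet ≃ₜ F'.toSet) ↔ Nonempty ((f F).toSet ≃ₜ (f F').toSet)) := by
  obtain ⟨R, hR, hc⟩ := FU_structures U E₁
  obtain ⟨ι, hι⟩ := hU.exists_emb ZZ
  set em : FU U := (⊥ : Closeds U) with hem
  have hems : em.toSet = ∅ := rfl
  have hm1 : MeasurableSet {F : FU U | F.toSet.Nonempty} := by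
    have h1 : {F : FU U | F.toSet.Nonempty} = hit univ := by
      ext F
      simp [hit]
    rw [h1]
    exact meas_hit isOpen_univ
  have hne : ∀ F : FU U, (TH hι (TM.tc P (R F))).toSet.Nonempty := by
    intro F
    have := TM.tc_connected P (R F)
    obtain ⟨z⟩ := this.toNonempty
    exact ⟨_, (TH_homeo hι _ z).2⟩
  have hem' : IsEmpty em.toSet := ⟨fun x => by
    have h1 : (x : U) ∈ em.toSet := x.2
    exact (hems ▸ h1 : (x : U) ∈ (∅ : Set U))⟩
  set f : FU U → FU U := fun F => if F.toSet.Nonempty then TH hι (TM.tc P (R F)) else em with hf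
  have hpos : ∀ F, F.toSet.Nonempty → f F = TH hι (TM.tc P (R F)) := fun F hF => if_pos hF
  have hneg : ∀ F, ¬ F.toSet.Nonempty → f F = em := fun F hF => if_neg hF
  refine ⟨f, ?_, ?_, ?_⟩
  · exact Measurable.ite hm1 ((meas_TH hι).comp ((TM.tc_meas P).comp hR)) measurable_const
  · intro F
    by_cases hF : F.toSet.Nonempty
    · rw [hpos F hF]
      exact charted_of_homeo (TH_homeo hι (TM.tc P (R F)))
    · rw [hneg F hF]
      exact ⟨ChartedSpace.empty E em.toSet⟩
  · intro F F' h h'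
    by_cases hF : F.toSet.Nonempty
    · by_cases hF' : F'.toSet.Nonempty
      · rw [hpos F hF, hpos F' hF']
        rw [hc F F' hF hF' h h', ← TM.tc_iff P]
        constructor
        · rintro ⟨e⟩
          exact ⟨((TH_homeo hι _).symm.trans e).trans (TH_homeo hι _)⟩
        · rintro ⟨e⟩
          exact ⟨((TH_homeo hι _).trans e).trans (TH_homeo hι _).symm⟩
      · rw [hpos F hF, hneg F' hF']
        constructor
        · rintro ⟨e⟩
          obtain ⟨x, hx⟩ := hF
          exact absurd ⟨_, (e ⟨x, hx⟩).2⟩ hF'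
        · rintro ⟨e⟩
          obtain ⟨x, hx⟩ := hne F
          exact (hem'.false (e ⟨x, hx⟩)).elim
    · by_cases hF' : F'.toSet.Nonempty
      · rw [hneg F hF, hpos F' hF']
        constructor
        · rintro ⟨e⟩
          obtain ⟨x, hx⟩ := hF'
          exact absurd ⟨_, (e.symm ⟨x, hx⟩).2⟩ hF
        · rintro ⟨e⟩
          obtain ⟨x, hx⟩ := hne F'
          exact (hem'.false (e.symm ⟨x, hx⟩)).elim
      · rw [hneg F hF, hneg F' hF']
        refine iff_of_true ?_ ⟨Homeomorph.refl _⟩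
        have h1 : IsEmpty F.toSet := ⟨fun x => hF ⟨_, x.2⟩⟩
        have h2 : IsEmpty F'.toSet := ⟨fun x => hF' ⟨_, x.2⟩⟩
        exact homeo_of_empty h1 h2

end Pool.Agent.H655.EF
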