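import Pool.Agent.H655.MC.Top

/-!
The Effros Borel structure on the closed subsets of a Polish space, and Borel metric codes.
-/

open Set Filter Topology MeasureTheory TopologicalSpace

namespace Pool.Agent.H655.EF

/-- The space of closed subsets of a topological space. -/
def FU (U : Type) [TopologicalSpace U] : Type := Closeds U

/-- The closed set. -/
def FU.toSet {U : Type} [TopologicalSpace U] (F : FU U) : Set U := Closeds.carrier F

/-- The closed sets which meet a set. -/
def hit {U : Type} [TopologicalSpace U] (V : Set U) : Set (FU U) :=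
  {F | (F.toSet ∩ V).Nonempty}

/-- The Effros Borel structure, generated by the sets of closed sets which meet an open set. -/
instance effros (U : Type) [TopologicalSpace U] : MeasurableSpace (FU U) :=
  MeasurableSpace.generateFrom {A | ∃ V : Set U, IsOpen V ∧ A = hit V}

theorem FU.closed {U : Type} [TopologicalSpace U] (F : FU U) : IsClosed F.toSet :=
  Closeds.isClosed' F

theorem meas_hit {U : Type} [TopologicalSpace U] {V : Set U} (hV : IsOpen V) :
    MeasurableSet (hit V) := MeasurableSpace.measurableSet_generateFrom ⟨V, hV, rfl⟩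

theorem m_hit {U : Type} [TopologicalSpace U] {V : Set U} (hV : IsOpen V) :
    Measurable (fun F : FU U => (F.toSet ∩ V).Nonempty) :=
  measurableSet_setOfPred.1 (meas_hit hV)

section sel

variable {U : Type} [MetricSpace U] [CompleteSpace U]

/-- The radii. -/
noncomputable def rd (r n : ℕ) : ℝ := 1 / ((r : ℝ) + 1) * (1 / 2) ^ n

theorem rd_pos (r n : ℕ) : 0 < rd r n := by
  unfold rd
  positivity

theorem rd_succ (r n : ℕ) : rd r (n + 1) = rd r n / 2 := by
  unfold rd
  rw [pow_succ]
  ring

variable (u : ℕ → U)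

/-- The start. -/
def SP (r : ℕ) (F : FU U) (k : ℕ) : Prop :=
  (F.toSet ∩ Metric.ball (u k) (rd r 0)).Nonempty

/-- The step. -/
def NP (r n : ℕ) (F : FU U) (j k : ℕ) : Prop :=
  (F.toSet ∩ (Metric.ball (u j) (rd r n) ∩ Metric.ball (u k) (rd r (n + 1)))).Nonempty

theorem or_find (P : ℕ → Prop) : ∃ k, P k ∨ ∀ k', ¬ P k' := by
  by_cases h : ∃ k, P k
  · obtain ⟨k, hk⟩ := h
    exact ⟨k, Or.inl hk⟩
  · exact ⟨0, Or.inr fun k' hk' => h ⟨k', hk'⟩⟩

open Classical in
/-- The indices of the centers. -/
noncomputable def kk (m r : ℕ) (F : FU U) : ℕ → ℕ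
  | 0 => if SP u r F m then m else Nat.find (or_find (SP u r F))
  | n + 1 => Nat.find (or_find (NP u r n F (kk m r F n)))

theorem find_spec' {P : ℕ → Prop} [DecidablePred fun k => P k ∨ ∀ k', ¬ P k'] (h : ∃ k, P k) :
    P (Nat.find (or_find P)) := by
  rcases Nat.find_spec (or_find P) with h1 | h1
  · exact h1
  · obtain ⟨k, hk⟩ := h
    exact absurd hk (h1 k)

variable {u}

theorem kk_zero (hu : DenseRange u) {F : FU U} (hF : F.toSet.Nonempty) (m r : ℕ) :
    SP u r F (kk u m r F 0) := by
  classical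
  by_cases h : SP u r F m
  · have : kk u m r F 0 = m := if_pos h
    rw [this]
    exact h
  · have h1 : kk u m r F 0 = Nat.find (or_find (SP u r F)) := if_neg h
    rw [h1]
    refine find_spec' ?_
    obtain ⟨x, hx⟩ := hF
    obtain ⟨k, hk⟩ := hu.exists_dist_lt x (rd_pos r 0)
    exact ⟨k, x, hx, hk⟩

theorem kk_ball (hu : DenseRange u) {F : FU U} (hF : F.toSet.Nonempty) (m r n : ℕ) :
    (F.toSet ∩ Metric.ball (u (kk u m r F n)) (rd r n)).Nonempty ∧
      NP u r n F (kk u m r F n) (kk u m r F (n + 1)) := by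
  classical
  have key : ∀ n, (F.toSet ∩ Metric.ball (u (kk u m r F n)) (rd r n)).Nonempty →
      NP u r n F (kk u m r F n) (kk u m r F (n + 1)) := by
    intro n h
    have h1 : kk u m r F (n + 1) = Nat.find (or_find (NP u r n F (kk u m r F n))) := rfl
    rw [h1]
    refine find_spec' ?_
    obtain ⟨x, hx, hxb⟩ := h
    obtain ⟨k, hk⟩ := hu.exists_dist_lt x (rd_pos r (n + 1))
    exact ⟨k, x, hx, hxb, hk⟩
  have h0 : (F.toSet ∩ Metric.ball (u (kk u m r F n)) (rd r n)).Nonempty := by
    induction n with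
    | zero => exact kk_zero hu hF m r
    | succ n ih =>
      obtain ⟨x, hx, _, hx2⟩ := key n ih
      exact ⟨x, hx, hx2⟩
  exact ⟨h0, key n h0⟩

theorem kk_dist (hu : DenseRange u) {F : FU U} (hF : F.toSet.Nonempty) (m r n : ℕ) :
    dist (u (kk u m r F n)) (u (kk u m r F (n + 1))) ≤ (2 * (1 / ((r : ℝ) + 1))) * (1 / 2) ^ n := by
  obtain ⟨x, _, h1, h2⟩ := (kk_ball hu hF m r n).2
  rw [Metric.mem_ball] at h1 h2
  have h3 := dist_triangle_left (u (kk u m r F n)) (u (kk u m r F (n + 1))) x
  rw [rd_succ] at h2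
  have h4 := rd_pos r n
  have h5 : (2 * (1 / ((r : ℝ) + 1))) * (1 / 2) ^ n = 2 * rd r n := by
    unfold rd
    ring
  rw [h5]
  linarith

/-- The selected point. -/
theorem exists_limit (hu : DenseRange u) {F : FU U} (hF : F.toSet.Nonempty) (m r : ℕ) :
    ∃ x ∈ F.toSet, Tendsto (fun n => u (kk u m r F n)) atTop (𝓝 x) ∧
      dist (u (kk u m r F 0)) x ≤ 4 * (1 / ((r : ℝ) + 1)) := by
  have hc := cauchySeq_of_le_geometric (1 / 2) (2 * (1 / ((r : ℝ) + 1))) (by norm_num)
    (kk_dist hu hF m r)
  obtain ⟨x, hx⟩ := cauchySeq_tendsto_of_complete hc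
  refine ⟨x, ?_, hx, ?_⟩
  · rw [← F.closed.closure_eq, Metric.mem_closure_iff]
    intro ε hε
    have h1 : Tendsto (fun n => rd r n) atTop (𝓝 0) := by
      have h2 := (tendsto_pow_atTop_nhds_zero_of_lt_one (r := (1 / 2 : ℝ)) (by norm_num)
        (by norm_num)).const_mul (1 / ((r : ℝ) + 1))
      rw [mul_zero] at h2
      exact h2
    obtain ⟨n, hn1, hn2⟩ := ((h1.eventually (Iio_mem_nhds (half_pos hε))).and
      ((Metric.tendsto_nhds.1 hx) (ε / 2) (half_pos hε))).exists
    obtain ⟨y, hy, hyb⟩ := (kk_ball hu hF m r n).1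
    refine ⟨y, hy, ?_⟩
    rw [Metric.mem_ball] at hyb
    have h3 := dist_triangle_left x y (u (kk u m r F n))
    rw [dist_comm y] at hyb
    have hn1' : rd r n < ε / 2 := hn1
    linarith
  · have h1 := dist_le_of_le_geometric_of_tendsto₀ (1 / 2) (2 * (1 / ((r : ℝ) + 1))) (by norm_num)
      (kk_dist hu hF m r) hx
    calc dist (u (kk u m r F 0)) x ≤ 2 * (1 / ((r : ℝ) + 1)) / (1 - 1 / 2) := h1
      _ = 4 * (1 / ((r : ℝ) + 1)) := by ring

theorem kk_empty {F : FU U} (hF : ¬ F.toSet.Nonempty) (m r n : ℕ) : kk u m r F n = 0 := by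
  classical
  have he : ∀ V : Set U, ¬ (F.toSet ∩ V).Nonempty := fun V hV => hF (hV.mono inter_subset_left)
  cases n with
  | zero =>
    have h1 : kk u m r F 0 = Nat.find (or_find (SP u r F)) := if_neg (he _)
    rw [h1, Nat.find_eq_zero]
    exact Or.inr fun k' => he _
  | succ n =>
    have h1 : kk u m r F (n + 1) = Nat.find (or_find (NP u r n F (kk u m r F n))) := rfl
    rw [h1, Nat.find_eq_zero]
    exact Or.inr fun k' => he _

omit [CompleteSpace U] in
open Classical in
theorem meas_kk (m r n : ℕ) : Measurable (fun F : FU U => kk u m r F n) := by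
  have hNP : ∀ n j k, Measurable (fun F : FU U => NP u r n F j k) := fun n j k =>
    m_hit (Metric.isOpen_ball.inter Metric.isOpen_ball)
  have hSP : ∀ k, Measurable (fun F : FU U => SP u r F k) := fun k =>
    m_hit Metric.isOpen_ball
  induction n with
  | zero =>
    have h1 : (fun F : FU U => kk u m r F 0) = fun F =>
        if SP u r F m then m else Nat.find (or_find (SP u r F)) := rfl
    rw [h1]
    refine Measurable.ite (measurableSet_setOfPred.2 (hSP m)) measurable_const ?_
    refine measurable_find _ fun k => measurableSet_setOfPred.2 ?_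
    exact (hSP k).or (Measurable.forall fun k' => (hSP k').not)
  | succ n ih =>
    have h1 : (fun F : FU U => kk u m r F (n + 1)) = fun F =>
        Nat.find (or_find (NP u r n F (kk u m r F n))) := rfl
    rw [h1]
    refine measurable_find _ fun k => measurableSet_setOfPred.2 ?_
    have h2 : ∀ k, Measurable (fun F : FU U => NP u r n F (kk u m r F n) k) := by
      intro k
      have h3 : (fun F : FU U => NP u r n F (kk u m r F n) k) =
          fun F => ∃ j, kk u m r F n = j ∧ NP u r n F j k := by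
        funext F
        exact propext ⟨fun h => ⟨_, rfl, h⟩, fun ⟨j, hj, h⟩ => hj ▸ h⟩
      rw [h3]
      refine Measurable.exists fun j => Measurable.and ?_ (hNP n j k)
      exact measurableSet_setOfPred.1 (ih (measurableSet_singleton j))
    exact (h2 k).or (Measurable.forall fun k' => (h2 k').not)

end sel

/-- The Borel map from closed sets to metric codes. -/
theorem exists_metric_code (U : Type) [MetricSpace U] [CompleteSpace U] [SeparableSpace U] :
    ∃ g : FU U → MC.Et, Measurable g ∧ ∀ F : FU U, F.toSet.Nonempty →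
      ∃ a : ℕ → F.toSet, MC.Rz (g F) F.toSet a := by
  rcases isEmpty_or_nonempty U with he | hne
  · refine ⟨fun _ _ _ => 0, measurable_const, fun F hF => ?_⟩
    obtain ⟨x, _⟩ := hF
    exact (he.false x).elim
  set u : ℕ → U := denseSeq U with hu'
  have hu : DenseRange u := denseRange_denseSeq U
  let κ : ℕ → ℕ → FU U → ℕ := fun i n F => kk u i.unpair.1 i.unpair.2 F n
  have hκ : ∀ i n, Measurable (κ i n) := fun i n => meas_kk _ _ n
  have hlim : ∀ (F : FU U) (i j : ℕ), ∃ l, Tendsto (fun n => dist (u (κ i n F)) (u (κ j n F)))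
      atTop (𝓝 l) := by
    intro F i j
    by_cases hF : F.toSet.Nonempty
    · obtain ⟨x, _, hx, _⟩ := exists_limit hu hF i.unpair.1 i.unpair.2
      obtain ⟨y, _, hy, _⟩ := exists_limit hu hF j.unpair.1 j.unpair.2
      exact ⟨dist x y, hx.dist hy⟩
    · refine ⟨dist (u 0) (u 0), ?_⟩
      have h1 : (fun n => dist (u (κ i n F)) (u (κ j n F))) = fun _ => dist (u 0) (u 0) := by
        funext n
        show dist (u (kk u _ _ F n)) (u (kk u _ _ F n)) = _
        rw [kk_empty hF, kk_empty hF]
      rw [h1]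
      exact tendsto_const_nhds
  choose g hg using hlim
  refine ⟨g, ?_, ?_⟩
  · refine measurable_pi_iff.2 fun i => measurable_pi_iff.2 fun j => ?_
    refine measurable_of_tendsto_metrizable (f := fun n F => dist (u (κ i n F)) (u (κ j n F)))
      ?_ (tendsto_pi_nhds.2 fun F => hg F i j)
    intro n
    exact (measurable_of_countable (fun q : ℕ × ℕ => dist (u q.1) (u q.2))).comp
      ((hκ i n).prodMk (hκ j n))
  · intro F hF
    choose x hxF hx hxd using fun i : ℕ => exists_limit hu hF i.unpair.1 i.unpair.2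
    refine ⟨fun i => ⟨x i, hxF i⟩, ?_, ?_⟩
    · rintro ⟨y, hy⟩
      rw [Metric.mem_closure_iff]
      intro ε hε
      obtain ⟨r, hr⟩ := exists_nat_one_div_lt (show (0 : ℝ) < ε / 5 by positivity)
      have hrd : rd r 0 = 1 / ((r : ℝ) + 1) := by simp [rd]
      obtain ⟨m, hm⟩ := hu.exists_dist_lt y (rd_pos r 0)
      refine ⟨_, ⟨Nat.pair m r, rfl⟩, ?_⟩
      have h1 := hxd (Nat.pair m r)
      rw [Nat.unpair_pair] at h1
      have h2 : kk u m r F 0 = m := if_pos ⟨y, hy, hm⟩
      rw [h2] at h1
      rw [hrd] at hm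
      show dist y (x (Nat.pair m r)) < ε
      have h3 := dist_triangle y (u m) (x (Nat.pair m r))
      linarith
    · intro i j
      show dist (x i) (x j) = g F i j
      exact tendsto_nhds_unique ((hx i).dist (hx j)) (hg F i j)

end Pool.Agent.H655.EF
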