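import Pool.Agent.H655.EF.Source

/-!
The manifold coded by an atlas, as a closed subset of a universal Polish space, in a Borel way.
-/

open Set Filter Topology MeasureTheory TopologicalSpace

namespace Pool.Agent.H655.EF

open Pool.Agent.H655.CM Pool.Agent.H655.MC

variable {E : Type} [NormedAddCommGroup E] [NormedSpace ℝ E] [FiniteDimensional ℝ E]

open Classical in
/-- The bump functions. -/
noncomputable def ub (c : Code E) (b : ℕ × ℕ × ℕ) (z : c.Pts) : ℝ :=
  if (cb b : Set E) ⊆ c.V b.1 b.1 ∧ ∃ y, (b.1, y) ∈ z.val then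
    max 0 (1 / ((b.2.2 : ℝ) + 1) - dist (coord b.1 z.val) (dn E b.2.1)) else 0

open Classical in
/-- The values of the bump functions at a point of a chart. -/
noncomputable def vv (i : ℕ) (x : E) (b : ℕ × ℕ × ℕ) (c : Code E) : ℝ :=
  if (cb b : Set E) ⊆ c.V b.1 b.1 ∧ x ∈ c.V i b.1 then
    max 0 (1 / ((b.2.2 : ℝ) + 1) - dist (c.φ i b.1 x) (dn E b.2.1)) else 0

theorem ub_mk (c : Code E) (b : ℕ × ℕ × ℕ) {i : ℕ} {x : E} (hx : x ∈ c.V i i) :
    ub c b (c.mk' i ⟨x, hx⟩) = vv i x b c := by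
  classical
  have h1 : (∃ y, (b.1, y) ∈ (c.mk' i ⟨x, hx⟩).val) ↔ x ∈ c.V i b.1 := by
    constructor
    · rintro ⟨y, hy⟩
      exact hy.1
    · intro h
      exact ⟨c.φ i b.1 x, h, rfl⟩
  unfold ub vv
  by_cases h : (cb b : Set E) ⊆ c.V b.1 b.1 ∧ x ∈ c.V i b.1
  · rw [if_pos h, if_pos ⟨h.1, h1.2 h.2⟩]
    have h2 : coord b.1 (c.mk' i ⟨x, hx⟩).val = c.φ i b.1 x := by
      show coord b.1 (cls c i x) = _
      rw [cls_φ h.2]
      exact coord_cls (c.φ_mem h.2)
    rw [h2]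
  · rw [if_neg h, if_neg (fun h' => h ⟨h'.1, h1.1 h'.2⟩)]

theorem ub_nonneg (c : Code E) (b : ℕ × ℕ × ℕ) (z : c.Pts) : 0 ≤ ub c b z := by
  unfold ub
  split_ifs
  · exact le_max_left _ _
  · exact le_rfl

theorem ub_pos (c : Code E) (b : ℕ × ℕ × ℕ) (z : c.Pts) :
    0 < ub c b z ↔ (cb b : Set E) ⊆ c.V b.1 b.1 ∧ ∃ y ∈ (ob b : Set E), (b.1, y) ∈ z.val := by
  unfold ub
  split_ifs with h
  · obtain ⟨h0, h1⟩ := h
    have h2 := coord_mem z.mem h1
    have h3 : (b.1, coord b.1 z.val) ∈ z.val := by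
      have := mem_cls_self h2.1
      rwa [← h2.2] at this
    have hb : ∀ y : E, y ∈ (ob b : Set E) ↔ dist y (dn E b.2.1) < 1 / ((b.2.2 : ℝ) + 1) :=
      fun y => Iff.rfl
    constructor
    · intro h4
      refine ⟨h0, _, ?_, h3⟩
      rw [hb]
      rcases lt_max_iff.1 h4 with h5 | h5
      · exact absurd h5 (lt_irrefl _)
      · linarith
    · rintro ⟨_, y, hy, hyz⟩
      have h5 := (mem_iff z.mem _).1 hyz
      have h6 : coord b.1 z.val = y := by
        rw [h5.2]
        exact coord_cls h5.1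
      rw [h6]
      rw [hb] at hy
      exact lt_max_of_lt_right (by linarith)
  · constructor
    · intro h1
      exact absurd h1 (lt_irrefl _)
    · rintro ⟨h0, y, _, hy⟩
      exact absurd ⟨h0, y, hy⟩ h

/-- The compact set attached to a ball. -/
def Kb (c : Code E) (b : ℕ × ℕ × ℕ) : Set c.Pts := {z | ∃ y ∈ (cb b : Set E), (b.1, y) ∈ z.val}

theorem Kb_compact (c : Code E) (b : ℕ × ℕ × ℕ) (hb : (cb b : Set E) ⊆ c.V b.1 b.1) :
    IsCompact (Kb c b) := by
  have h1 : Kb c b = (fun x : (cb b : Set E) => c.mk' b.1 ⟨x.1, hb x.2⟩) '' univ := by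
    ext z
    constructor
    · rintro ⟨y, hy, hyz⟩
      refine ⟨⟨y, hy⟩, trivial, ?_⟩
      exact Code.Pts.ext ((mem_iff z.mem _).1 hyz).2.symm
    · rintro ⟨⟨y, hy⟩, _, rfl⟩
      exact ⟨y, hy, mem_cls_self (hb hy)⟩
  rw [h1]
  have : CompactSpace (cb b : Set E) := isCompact_iff_compactSpace.1 (cb_compact b)
  refine isCompact_univ.image ?_
  exact (c.continuous_mk' b.1).comp (by fun_prop)

theorem ub_cont (c : Code E) (b : ℕ × ℕ × ℕ) : Continuous (ub c b) := by
  classical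
  by_cases hb : (cb b : Set E) ⊆ c.V b.1 b.1
  swap
  · have : ub c b = fun _ => 0 := by
      funext z
      exact if_neg (fun h => hb h.1)
    rw [this]
    exact continuous_const
  rw [continuous_iff_continuousAt]
  intro z
  by_cases hz : ∃ y, (b.1, y) ∈ z.val
  · have hs : z ∈ (c.chart b.1 z).source := c.mem_chart.2 hz
    have h1 : ContinuousAt (c.chart b.1 z) z := (c.chart b.1 z).continuousAt hs
    have h2 : ContinuousAt (fun w => max 0 (1 / ((b.2.2 : ℝ) + 1) -
        dist (c.chart b.1 z w) (dn E b.2.1))) z :=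
      continuousAt_const.max (continuousAt_const.sub (h1.dist continuousAt_const))
    refine h2.congr ?_
    filter_upwards [(c.chart b.1 z).open_source.mem_nhds hs] with w hw
    exact (if_pos ⟨hb, c.mem_chart.1 hw⟩).symm
  · have hK : z ∉ Kb c b := fun ⟨y, _, hy⟩ => hz ⟨y, hy⟩
    have h1 : (Kb c b)ᶜ ∈ 𝓝 z := (Kb_compact c b hb).isClosed.isOpen_compl.mem_nhds hK
    have h2 : ContinuousAt (fun _ : c.Pts => (0 : ℝ)) z := continuousAt_const
    refine h2.congr ?_
    filter_upwards [h1] with w hw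
    by_contra hne
    have h3 : 0 < ub c b w := lt_of_le_of_ne (ub_nonneg c b w) hne
    obtain ⟨_, y, hy, hyw⟩ := (ub_pos c b w).1 h3
    exact hw ⟨y, ob_sub_cb _ hy, hyw⟩

/-- The map to the sequence space. -/
noncomputable def uu (c : Code E) (z : c.Pts) : ℕ × ℕ × ℕ → ℝ := fun b => ub c b z

theorem uu_cont (c : Code E) : Continuous (uu c) := continuous_pi fun b => ub_cont c b

theorem uu_ne (c : Code E) (z : c.Pts) : uu c z ≠ 0 := by
  obtain ⟨i, x, hx⟩ := c.exists_idx z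
  have h1 := (mem_iff z.mem _).1 hx
  obtain ⟨b, rfl, hb1, hb2⟩ := exists_rb i ((c.isOpen i i).mem_nhds h1.1)
  intro h
  have h2 : 0 < ub c b z := (ub_pos c b z).2 ⟨hb2, x, hb1, hx⟩
  have h3 : ub c b z = 0 := congrFun h b
  exact h2.ne' h3

theorem uu_inj (c : Code E) : Function.Injective (uu c) := by
  intro z w h
  by_contra hne
  obtain ⟨i, x, hx⟩ := c.exists_idx z
  have h1 := (mem_iff z.mem _).1 hx
  have hop : IsOpen ({w}ᶜ : Set c.Pts) := isOpen_compl_singleton
  have h2 := (c.isOpen_iff.1 hop) i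
  have hxm : x ∈ {x : E | ∃ h : x ∈ c.V i i, c.mk' i ⟨x, h⟩ ∈ ({w}ᶜ : Set c.Pts)} := by
    refine ⟨h1.1, ?_⟩
    intro h3
    apply hne
    have h4 : c.mk' i ⟨x, h1.1⟩ = w := h3
    rw [← h4]
    exact Code.Pts.ext h1.2
  obtain ⟨b, rfl, hb1, hb2⟩ := exists_rb i (h2.mem_nhds hxm)
  have h5 : 0 < ub c b z := (ub_pos c b z).2 ⟨fun y hy => (hb2 hy).1, x, hb1, hx⟩
  have h6 : ub c b z = ub c b w := congrFun h b
  rw [h6, ub_pos] at h5
  obtain ⟨_, y, hy, hyw⟩ := h5
  obtain ⟨hyV, hy2⟩ := hb2 (ob_sub_cb _ hy)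
  apply hy2
  exact Code.Pts.ext ((mem_iff w.mem _).1 hyw).2.symm

/-- The space of nonzero sequences. -/
abbrev ZZ : Type := {y : ℕ × ℕ × ℕ → ℝ // y ≠ 0}

theorem ZZ_open : IsOpen {y : ℕ × ℕ × ℕ → ℝ | y ≠ 0} := isOpen_compl_singleton

instance : PolishSpace ZZ := ZZ_open.polishSpace

/-- The map to the space of nonzero sequences. -/
noncomputable def uz (c : Code E) (z : c.Pts) : ZZ := ⟨uu c z, uu_ne c z⟩

theorem uz_closed (c : Code E) : IsClosedEmbedding (uz c) := by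
  refine .of_continuous_injective_isClosedMap ((uu_cont c).subtype_mk _) ?_ ?_
  · intro z w h
    exact uu_inj c (congrArg Subtype.val h)
  · intro C hC
    rw [← closure_subset_iff_isClosed]
    intro y hy
    have hy' : y.1 ∈ closure (uu c '' C) := by
      have h1 := map_mem_closure continuous_subtype_val hy (t := uu c '' C) (by
        rintro _ ⟨z, hz, rfl⟩
        exact ⟨z, hz, rfl⟩)
      exact h1
    have h0 : ∃ b, y.1 b ≠ 0 := Function.ne_iff.1 y.2
    obtain ⟨b, hb⟩ := h0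
    have hnn : 0 ≤ y.1 b := by
      have h2 : closure (uu c '' C) ⊆ {y | 0 ≤ y b} := by
        refine closure_minimal ?_ (isClosed_le continuous_const (continuous_apply b))
        rintro _ ⟨z, _, rfl⟩
        exact ub_nonneg c b z
      exact h2 hy'
    have hpos : 0 < y.1 b := lt_of_le_of_ne hnn (Ne.symm hb)
    have hNo : IsOpen {y : ℕ × ℕ × ℕ → ℝ | 0 < y b} :=
      isOpen_lt continuous_const (continuous_apply b)
    have hval : (cb b : Set E) ⊆ c.V b.1 b.1 := by
      obtain ⟨_, h3, z, _, rfl⟩ := mem_closure_iff.1 hy' _ hNo hpos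
      exact ((ub_pos c b z).1 h3).1
    have hcpt : IsCompact (uu c '' (C ∩ Kb c b)) :=
      ((Kb_compact c b hval).inter_left hC).image (uu_cont c)
    have h4 : y.1 ∈ uu c '' (C ∩ Kb c b) := by
      rw [← hcpt.isClosed.closure_eq, mem_closure_iff]
      intro W hW hyW
      obtain ⟨_, ⟨h5, h6⟩, z, hz, rfl⟩ := mem_closure_iff.1 hy' _ (hW.inter hNo) ⟨hyW, hpos⟩
      obtain ⟨_, x, hx, hxz⟩ := (ub_pos c b z).1 h6
      exact ⟨_, h5, z, ⟨hz, x, ob_sub_cb _ hx, hxz⟩, rfl⟩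
    obtain ⟨z, hz, hzy⟩ := h4
    exact ⟨z, hz.1, Subtype.ext hzy⟩

theorem meas_vv (i : ℕ) (x : E) (b : ℕ × ℕ × ℕ) : Measurable (vv i x b : Code E → ℝ) := by
  classical
  letI : MeasurableSpace E := borel E
  haveI : BorelSpace E := ⟨rfl⟩
  unfold vv
  refine Measurable.ite ?_ ?_ measurable_const
  · exact (meas_compact b.1 b.1 (cb_compact b)).inter (meas_mem i b.1 x)
  · refine measurable_const.max (measurable_const.sub ?_)
    exact (meas_phi i b.1 x).dist measurable_const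

variable {U : Type} [TopologicalSpace U]

/-- The closed subset given by a code. -/
noncomputable def TH {ι : ZZ → U} (hι : IsClosedEmbedding ι) (c : Code E) : FU U :=
  (⟨range (ι ∘ uz c), (hι.comp (uz_closed c)).isClosed_range⟩ : Closeds U)

theorem TH_set {ι : ZZ → U} (hι : IsClosedEmbedding ι) (c : Code E) :
    (TH hι c).toSet = range (ι ∘ uz c) := rfl

/-- The closed subset is homeomorphic to the coded manifold. -/
noncomputable def TH_homeo {ι : ZZ → U} (hι : IsClosedEmbedding ι) (c : Code E) :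
    c.Pts ≃ₜ (TH hι c).toSet := (hι.comp (uz_closed c)).toIsEmbedding.toHomeomorph

theorem meas_TH {ι : ZZ → U} (hι : IsClosedEmbedding ι) :
    Measurable (TH hι : Code E → FU U) := by
  refine measurable_generateFrom ?_
  rintro _ ⟨V, hV, rfl⟩
  set V' : Set (ℕ × ℕ × ℕ → ℝ) := Subtype.val '' (ι ⁻¹' V) with hV'
  have hV'o : IsOpen V' := ZZ_open.isOpenMap_subtype_val _ (hV.preimage hι.continuous)
  have h1 : TH hι ⁻¹' hit V = ⋃ i : ℕ, ⋃ k : ℕ, {c : Code E | dn E k ∈ c.V i i} ∩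
      (fun c : Code E => fun b => vv i (dn E k) b c) ⁻¹' V' := by
    ext c
    simp only [mem_iUnion, mem_inter_iff, mem_ofPred_eq, mem_preimage]
    constructor
    · rintro ⟨_, ⟨z, rfl⟩, hz⟩
      have ho : IsOpen {z : c.Pts | ι (uz c z) ∈ V} :=
        hV.preimage (hι.continuous.comp (uz_closed c).continuous)
      obtain ⟨i, x, hx⟩ := c.exists_idx z
      have h2 := (mem_iff z.mem _).1 hx
      have h3 : x ∈ {x : E | ∃ h : x ∈ c.V i i, c.mk' i ⟨x, h⟩ ∈ {z : c.Pts | ι (uz c z) ∈ V}} := by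
        refine ⟨h2.1, ?_⟩
        have h4 : c.mk' i ⟨x, h2.1⟩ = z := Code.Pts.ext h2.2.symm
        rw [h4]
        exact hz
      obtain ⟨_, ⟨h5, h6⟩, k, rfl⟩ := (denseRange_denseSeq E).inter_open_nonempty _
        (c.isOpen_iff.1 ho i) ⟨x, h3⟩
      refine ⟨i, k, h5, ⟨uz c (c.mk' i ⟨_, h5⟩), h6, ?_⟩⟩
      funext b
      exact ub_mk c b h5
    · rintro ⟨i, k, h5, ⟨y, hy, hyv⟩⟩
      refine ⟨ι (uz c (c.mk' i ⟨_, h5⟩)), ⟨_, rfl⟩, ?_⟩
      have h6 : uz c (c.mk' i ⟨_, h5⟩) = y := by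
        apply Subtype.ext
        rw [hyv]
        funext b
        exact ub_mk c b h5
      rw [h6]
      exact hy
  rw [h1]
  refine MeasurableSet.iUnion fun i => MeasurableSet.iUnion fun k => (meas_mem i i _).inter ?_
  have h2 : Measurable (fun c : Code E => fun b => vv i (dn E k) b c) :=
    measurable_pi_iff.2 fun b => meas_vv i _ b
  exact h2 hV'o.measurableSet

end Pool.Agent.H655.EF
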