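import Pool.Agent.H655.EF.Main

/-!
The space of real sequences contains a closed copy of every Polish space.
-/

open Set Filter Topology TopologicalSpace

namespace Pool.Agent.H655.EF

/-- The auxiliary sums. -/
noncomputable def Sm (m : ℕ) (g : ℕ → ℝ) : ℝ :=
  ∑' n : ℕ, (1 / 2 : ℝ) ^ n * min 1 (max 0 (1 / ((m : ℝ) + 1) - g n))

theorem Sm_term (m : ℕ) (g : ℕ → ℝ) (n : ℕ) :
    0 ≤ (1 / 2 : ℝ) ^ n * min 1 (max 0 (1 / ((m : ℝ) + 1) - g n)) ∧
    (1 / 2 : ℝ) ^ n * min 1 (max 0 (1 / ((m : ℝ) + 1) - g n)) ≤ (1 / 2 : ℝ) ^ n := by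
  have h1 : (0 : ℝ) < (1 / 2 : ℝ) ^ n := by positivity
  have h2 : (0 : ℝ) ≤ min 1 (max 0 (1 / ((m : ℝ) + 1) - g n)) :=
    le_min zero_le_one (le_max_left _ _)
  have h3 : min 1 (max 0 (1 / ((m : ℝ) + 1) - g n)) ≤ 1 := min_le_left _ _
  constructor
  · positivity
  · nlinarith

theorem Sm_summable (m : ℕ) (g : ℕ → ℝ) :
    Summable (fun n : ℕ => (1 / 2 : ℝ) ^ n * min 1 (max 0 (1 / ((m : ℝ) + 1) - g n))) :=
  Summable.of_nonneg_of_le (fun n => (Sm_term m g n).1) (fun n => (Sm_term m g n).2)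
    (summable_geometric_of_lt_one (by norm_num) (by norm_num))

theorem Sm_cont (m : ℕ) : Continuous (Sm m) := by
  refine continuous_tsum (u := fun n : ℕ => (1 / 2 : ℝ) ^ n) ?_
    (summable_geometric_of_lt_one (by norm_num) (by norm_num)) ?_
  · intro n
    fun_prop
  · intro n g
    rw [Real.norm_of_nonneg (Sm_term m g n).1]
    exact (Sm_term m g n).2

theorem Sm_pos {m : ℕ} {g : ℕ → ℝ} {n : ℕ} (h : g n < 1 / ((m : ℝ) + 1)) : 0 < Sm m g := by
  refine (Sm_summable m g).tsum_pos (fun n => (Sm_term m g n).1) n ?_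
  have : 0 < max 0 (1 / ((m : ℝ) + 1) - g n) := lt_max_of_lt_right (sub_pos.2 h)
  have h2 : 0 < min 1 (max 0 (1 / ((m : ℝ) + 1) - g n)) := lt_min one_pos this
  positivity

theorem Sm_exists {m : ℕ} {g : ℕ → ℝ} (h : Sm m g ≠ 0) : ∃ n, g n < 1 / ((m : ℝ) + 1) := by
  by_contra hcon
  push Not at hcon
  apply h
  unfold Sm
  have : (fun n : ℕ => (1 / 2 : ℝ) ^ n * min 1 (max 0 (1 / ((m : ℝ) + 1) - g n))) = fun _ => 0 := by
    funext n
    have h1 : max 0 (1 / ((m : ℝ) + 1) - g n) = 0 := max_eq_left (sub_nonpos.2 (hcon n))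
    rw [h1]
    simp
  rw [this, tsum_zero]

/-- The embedding. -/
noncomputable def Psi {Y : Type} [MetricSpace Y] (y : ℕ → Y) (x : Y) : ℕ ⊕ ℕ → ℝ
  | Sum.inl n => dist x (y n)
  | Sum.inr m => (Sm m (fun n => dist x (y n)))⁻¹

theorem Psi_closed {Y : Type} [MetricSpace Y] [CompleteSpace Y] {y : ℕ → Y} (hy : DenseRange y) :
    IsClosedEmbedding (Psi y) := by
  have hd : Continuous (fun (x : Y) (n : ℕ) => dist x (y n)) :=
    continuous_pi fun n => continuous_id.dist continuous_const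
  have hpos : ∀ (x : Y) (m : ℕ), 0 < Sm m (fun n => dist x (y n)) := by
    intro x m
    obtain ⟨n, hn⟩ := hy.exists_dist_lt x (show (0 : ℝ) < 1 / ((m : ℝ) + 1) by positivity)
    exact Sm_pos hn
  have hc : Continuous (Psi y) := by
    refine continuous_pi fun i => ?_
    cases i with
    | inl n => exact continuous_id.dist continuous_const
    | inr m => exact ((Sm_cont m).comp hd).inv₀ fun x => (hpos x m).ne'
  have hinj : Function.Injective (Psi y) := by
    intro x x' h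
    have h1 : ∀ n, dist x (y n) = dist x' (y n) := fun n => congrFun h (Sum.inl n)
    have h2 : dist x x' ≤ 0 := by
      refine le_of_forall_pos_le_add fun ε hε => ?_
      obtain ⟨n, hn⟩ := hy.exists_dist_lt x (half_pos hε)
      have h3 := dist_triangle_right x x' (y n)
      rw [← h1 n] at h3
      linarith
    exact dist_le_zero.1 h2
  refine .of_continuous_injective_isClosedMap hc hinj ?_
  refine (isProperMap_iff_ultrafilter.2 ⟨hc, ?_⟩).isClosedMap
  intro 𝒰 w hw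
  have h1 : ∀ n, Tendsto (fun x => dist x (y n)) 𝒰 (𝓝 (w (Sum.inl n))) := fun n =>
    (tendsto_pi_nhds.1 hw) (Sum.inl n)
  have h2 : Tendsto (fun (x : Y) (n : ℕ) => dist x (y n)) 𝒰 (𝓝 (fun n => w (Sum.inl n))) :=
    tendsto_pi_nhds.2 h1
  have h3 : ∀ m, Sm m (fun n => w (Sum.inl n)) ≠ 0 := by
    intro m h0
    have h4 : Tendsto (fun x => Sm m (fun n => dist x (y n))) 𝒰 (𝓝 0) := by
      have := ((Sm_cont m).tendsto _).comp h2
      rwa [h0] at this
    have h5 : Tendsto (fun x => (Sm m (fun n => dist x (y n)))⁻¹) 𝒰 (𝓝 (w (Sum.inr m))) :=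
      (tendsto_pi_nhds.1 hw) (Sum.inr m)
    have h6 := h4.mul h5
    rw [zero_mul] at h6
    have h7 : (fun x => Sm m (fun n => dist x (y n)) * (Sm m (fun n => dist x (y n)))⁻¹) =
        fun _ => 1 := by
      funext x
      exact mul_inv_cancel₀ (hpos x m).ne'
    rw [h7] at h6
    exact one_ne_zero (tendsto_nhds_unique tendsto_const_nhds h6)
  have hcau : Cauchy (𝒰 : Filter Y) := by
    rw [Metric.cauchy_iff]
    refine ⟨𝒰.neBot, fun ε hε => ?_⟩
    obtain ⟨m, hm⟩ := exists_nat_one_div_lt (half_pos hε)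
    obtain ⟨n, hn⟩ := Sm_exists (h3 m)
    refine ⟨{x | dist x (y n) < 1 / ((m : ℝ) + 1)}, (h1 n).eventually (Iio_mem_nhds hn), ?_⟩
    intro x hx x' hx'
    have h8 := dist_triangle_right x x' (y n)
    rw [mem_ofPred_eq] at hx hx'
    linarith
  obtain ⟨x, hx⟩ := cauchy_iff_exists_le_nhds.1 hcau
  exact ⟨x, tendsto_nhds_unique (hc.continuousAt.tendsto.mono_left hx) hw, hx⟩

/-- The space of real sequences contains a closed copy of every Polish space. -/
theorem universal_seq : Universal (ℕ → ℝ) := by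
  intro Y _ _
  letI := upgradeIsCompletelyMetrizable Y
  rcases isEmpty_or_nonempty Y with he | hne
  · exact ⟨(⊥ : Closeds (ℕ → ℝ)), homeo_of_empty he ⟨fun x => by
      have h1 : (x : ℕ → ℝ) ∈ (∅ : Set (ℕ → ℝ)) := x.2
      exact h1⟩⟩
  · have h1 := Psi_closed (denseRange_denseSeq Y)
    let e : (ℕ ⊕ ℕ) ≃ ℕ := (nonempty_equiv_of_countable (α := ℕ ⊕ ℕ) (β := ℕ)).some
    let H : (ℕ ⊕ ℕ → ℝ) ≃ₜ (ℕ → ℝ) := Homeomorph.piCongrLeft (Y := fun _ => ℝ) e
    have h2 : IsClosedEmbedding (H ∘ Psi (denseSeq Y)) := H.isClosedEmbedding.comp h1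
    exact ⟨(⟨range (H ∘ Psi (denseSeq Y)), h2.isClosed_range⟩ : Closeds (ℕ → ℝ)),
      ⟨h2.toIsEmbedding.toHomeomorph⟩⟩

end Pool.Agent.H655.EF
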